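import Mathlib
import Pool.Agent.TH35.MG.Low

set_option autoImplicit false

/-! Products of the `A_i - 1` over sets of handles, and a binomial lower bound for the dimension. -/

namespace Pool.Agent.R352.MG

open Pool.Agent.H798R3.MG Pool.Agent.TH35.MG Module

section ring
variable {R : Type*} [Ring R]

/-- the product of commuting elements over a finite set -/
def P (f : ℕ → R) (hc : ∀ i j, Commute (f i) (f j)) (E : Finset ℕ) : R :=
  E.noncommProd f (fun i _ j _ _ => hc i j)

variable {f : ℕ → R} {hc : ∀ i j, Commute (f i) (f j)}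

theorem P_empty : P f hc ∅ = 1 := Finset.noncommProd_empty _ _

theorem P_insert {i : ℕ} {E : Finset ℕ} (h : i ∉ E) : P f hc (insert i E) = f i * P f hc E :=
  Finset.noncommProd_insert_of_notMem _ _ _ _ h

theorem P_comm {y : R} {E : Finset ℕ} (h : ∀ i ∈ E, Commute y (f i)) : Commute y (P f hc E) :=
  Finset.noncommProd_commute _ _ _ _ h

theorem P_erase {i : ℕ} {E : Finset ℕ} (h : i ∈ E) : P f hc E = f i * P f hc (E.erase i) := by
  rw [← P_insert (Finset.notMem_erase i E), Finset.insert_erase h]

theorem P_conj {s : R} (σ : ℕ → ℕ) (hσ : Function.Injective σ) {E : Finset ℕ}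
    (h : ∀ i ∈ E, s * f i = f (σ i) * s) :
    s * P f hc E = P f hc (E.image σ) * s := by
  induction E using Finset.induction_on with
  | empty => rw [Finset.image_empty, P_empty, mul_one, one_mul]
  | insert i E hi ih =>
    have hn : σ i ∉ E.image σ := by
      intro hm
      obtain ⟨j, hj, e⟩ := Finset.mem_image.1 hm
      exact hi (hσ e ▸ hj)
    rw [Finset.image_insert, P_insert hi, P_insert hn, ← mul_assoc,
      h i (Finset.mem_insert_self _ _), mul_assoc,
      ih (fun j hj => h j (Finset.mem_insert_of_mem hj)), mul_assoc]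

theorem P_mono {E F : Finset ℕ} (h : F ⊆ E) (hF : P f hc F = 0) : P f hc E = 0 := by
  induction E using Finset.induction_on generalizing F with
  | empty => rwa [Finset.subset_empty.1 h] at hF
  | insert i E hi ih =>
    rw [P_insert hi]
    by_cases hiF : i ∈ F
    · have hsub : F.erase i ⊆ E := by
        intro j hj
        obtain ⟨h1, h2⟩ := Finset.mem_erase.1 hj
        exact (Finset.mem_insert.1 (h h2)).resolve_left h1
      -- the product over `F` divides
      have key : ∀ D : Finset ℕ, ∀ F' : Finset ℕ, F' ⊆ D → ∀ y : R,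
          y * P f hc F' = 0 → (∀ j, Commute y (f j)) → y * P f hc D = 0 := by
        intro D
        induction D using Finset.induction_on with
        | empty => intro F' h' y hy _; rwa [Finset.subset_empty.1 h'] at hy
        | insert j D hj ihD =>
          intro F' h' y hy hyc
          rw [P_insert hj]
          by_cases hjF : j ∈ F'
          · have h2 : F'.erase j ⊆ D := by
              intro m hm
              obtain ⟨h1, h2⟩ := Finset.mem_erase.1 hm
              exact (Finset.mem_insert.1 (h' h2)).resolve_left h1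
            rw [P_erase hjF, ← mul_assoc] at hy
            rw [← mul_assoc]
            exact ihD _ h2 _ hy (fun m => (hyc m).mul_left (hc j m))
          · have h2 : F' ⊆ D := fun m hm =>
              (Finset.mem_insert.1 (h' hm)).resolve_left (fun e => hjF (e ▸ hm))
            rw [← mul_assoc, (hyc j).eq, mul_assoc, ihD _ h2 _ hy hyc, mul_zero]
      rw [P_erase hiF] at hF
      exact key E _ hsub _ hF (fun j => hc i j)
    · have hsub : F ⊆ E := fun m hm =>
        (Finset.mem_insert.1 (h hm)).resolve_left (fun e => hiF (e ▸ hm))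
      rw [ih hsub hF, mul_zero]

end ring

section rel
variable {G : Type*} [Group G] {R : Type*} [Ring R]
  {N : ℕ} {A B al be T : ℕ → G} {tau : G}

/-- `ρ(A i) - 1` for `i < N` -/
def fN (ρ : G →* R) (N : ℕ) (A : ℕ → G) (i : ℕ) : R := if i < N then ρ (A i) - 1 else 1

theorem fN_lt (ρ : G →* R) {i : ℕ} (h : i < N) : fN ρ N A i = ρ (A i) - 1 := if_pos h

theorem fN_comm (ρ : G →* R) (h : ∀ i < N, ∀ j < N, Commute (A i) (A j)) (i j : ℕ) :
    Commute (fN ρ N A i) (fN ρ N A j) := by
  unfold fN
  split_ifs with hi hj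
  · exact (((h i hi j hj).map ρ).sub_left (Commute.one_left _)).sub_right (Commute.one_right _)
  · exact Commute.one_right _
  · exact Commute.one_left _
  · exact Commute.one_left _

/-- the product of the `ρ(A i) - 1`, `i ∈ E` -/
def X (ρ : G →* R) (h : ∀ i < N, ∀ j < N, Commute (A i) (A j)) (E : Finset ℕ) : R :=
  P (fN ρ N A) (fN_comm ρ h) E

variable {h : ∀ i < N, ∀ j < N, Commute (A i) (A j)}

theorem X_comm (ρ : G →* R) {x : G} {E : Finset ℕ} (hx : ∀ i ∈ E, i < N → Commute x (A i)) :
    Commute (ρ x) (X ρ h E) := by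
  apply P_comm
  intro i hi
  unfold fN
  split_ifs with hN
  · exact ((hx i hi hN).map ρ).sub_right (Commute.one_right _)
  · exact Commute.one_right _

theorem X_swap (r : HRel N A B al be T tau) (ρ : G →* R) {i : ℕ} (hi : i + 1 < N) {E : Finset ℕ}
    (hE : ∀ j ∈ E, j < N) :
    X ρ h E = 0 ↔ X ρ h (E.image (Equiv.swap i (i + 1))) = 0 := by
  set s := Ss A B T i with hs
  have s1 : s * A i = A (i + 1) * s := r.sA i hi
  have s2 : s * A (i + 1) = A i * s := r.sA' i hi
  have e : ρ s * X ρ h E = X ρ h (E.image (Equiv.swap i (i + 1))) * ρ s := by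
    apply P_conj _ (Equiv.swap i (i + 1)).injective
    intro j hj
    have hjN := hE j hj
    rcases eq_or_ne j i with rfl | h1
    · rw [Equiv.swap_apply_left, fN_lt ρ hjN, fN_lt ρ hi, mul_sub, sub_mul, mul_one, one_mul,
        ← map_mul, ← map_mul, s1]
    · rcases eq_or_ne j (i + 1) with rfl | h2
      · rw [Equiv.swap_apply_right, fN_lt ρ hjN, fN_lt ρ (by omega), mul_sub, sub_mul, mul_one,
          one_mul, ← map_mul, ← map_mul, s2]
      · rw [Equiv.swap_apply_of_ne_of_ne h1 h2, fN_lt ρ hjN]
        have c : Commute s (A j) := Ss_comm (r.commAA i (by omega) j hjN)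
          (r.commAB j hjN i (by omega) h1).symm (r.commTA i hi j hjN)
          (r.commAB j hjN (i + 1) hi h2).symm (r.commAA (i + 1) hi j hjN)
        exact ((c.map ρ).sub_right (Commute.one_right _)).eq
  have h1 : ρ s * ρ s⁻¹ = 1 := by rw [← map_mul, mul_inv_cancel, map_one]
  have h2 : ρ s⁻¹ * ρ s = 1 := by rw [← map_mul, inv_mul_cancel, map_one]
  constructor
  · intro h0
    rw [h0, mul_zero] at e
    calc _ = X ρ h (E.image (Equiv.swap i (i + 1))) * ρ s * ρ s⁻¹ := by
            rw [mul_assoc, h1, mul_one]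
      _ = 0 := by rw [← e, zero_mul]
  · intro h0
    rw [h0, zero_mul] at e
    calc _ = ρ s⁻¹ * (ρ s * X ρ h E) := by rw [← mul_assoc, h2, one_mul]
      _ = 0 := by rw [e, mul_zero]

theorem eq_range {E : Finset ℕ} (hE : ∀ i, i + 1 ∈ E → i ∈ E) : E = Finset.range E.card := by
  have hd : ∀ j ∈ E, ∀ m ≤ j, m ∈ E := by
    intro j
    induction j with
    | zero =>
      intro hj m hm
      obtain rfl : m = 0 := by omega
      exact hj
    | succ j ih =>
      intro hj m hm
      rcases Nat.lt_or_ge m (j + 1) with h | h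
      · exact ih (hE j hj) m (by omega)
      · obtain rfl : m = j + 1 := by omega
        exact hj
  have hex : ∃ n, n ∉ E := Infinite.exists_notMem_finset E
  obtain ⟨n, hn, hmin⟩ : ∃ n, n ∉ E ∧ ∀ m < n, m ∈ E := by
    classical
    exact ⟨Nat.find hex, Nat.find_spec hex, fun m hm => not_not.1 (Nat.find_min hex hm)⟩
  have e : E = Finset.range n := by
    ext j
    rw [Finset.mem_range]
    constructor
    · intro hj
      by_contra hcon
      exact hn (hd j hj n (by omega))
    · exact hmin j
  rw [e, Finset.card_range]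

theorem X_move (r : HRel N A B al be T tau) (ρ : G →* R) {E : Finset ℕ}
    (hE : ∀ j ∈ E, j < N) :
    X ρ h E = 0 ↔ X ρ h (Finset.range E.card) = 0 := by
  obtain ⟨n, hn⟩ : ∃ n, n = ∑ i ∈ E, i := ⟨_, rfl⟩
  induction n using Nat.strong_induction_on generalizing E with
  | _ n ih =>
    by_cases hx : ∃ i, i ∉ E ∧ i + 1 ∈ E
    · obtain ⟨i, hi1, hi2⟩ := hx
      have hiN := hE _ hi2
      have hcard : (E.image (Equiv.swap i (i + 1))).card = E.card :=
        Finset.card_image_of_injective _ (Equiv.swap i (i + 1)).injective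
      have hsw : ∀ j ∈ E, (Equiv.swap i (i + 1)) j ≤ j := by
        intro j hj
        rcases eq_or_ne j (i + 1) with rfl | h2
        · rw [Equiv.swap_apply_right]; omega
        · rw [Equiv.swap_apply_of_ne_of_ne (by rintro rfl; exact hi1 hj) h2]
      rw [X_swap r ρ hiN hE, ← hcard]
      refine ih (∑ j ∈ E.image (Equiv.swap i (i + 1)), j) ?_ ?_ rfl
      · rw [hn, Finset.sum_image (fun a _ b _ hab => (Equiv.swap i (i + 1)).injective hab)]
        refine Finset.sum_lt_sum hsw ⟨i + 1, hi2, ?_⟩
        rw [Equiv.swap_apply_right]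
        omega
      · intro j hj
        obtain ⟨m, hm, rfl⟩ := Finset.mem_image.1 hj
        exact lt_of_le_of_lt (hsw m hm) (hE m hm)
    · have e : E = Finset.range E.card := eq_range fun i hi => by
        by_contra hcon
        exact hx ⟨i, hcon, hi⟩
      rw [← e]

end rel

section lin
variable {K V G : Type*} [Field K] [AddCommGroup V] [Module K V] [Group G]
  {N : ℕ} {A B al be T : ℕ → G} {tau : G}

theorem count [FiniteDimensional K V] {ι : Type*} (S : Finset ι) (w : ι → V)
    (Y : ι → Module.End K V) (h1 : ∀ E ∈ S, Y E (w E) ≠ 0)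
    (h2 : ∀ E ∈ S, ∀ E' ∈ S, E ≠ E' → Y E' (w E) = 0) : S.card ≤ finrank K V := by
  classical
  have hli : LinearIndependent K (fun E : S => w E) := by
    rw [linearIndependent_iff']
    intro s c hs E hE
    have h3 := congrArg (Y E) hs
    rw [map_sum, map_zero, Finset.sum_eq_single E] at h3
    · rw [map_smul] at h3
      rcases smul_eq_zero.1 h3 with h | h
      · exact h
      · exact absurd h (h1 E E.2)
    · intro E' _ hne
      rw [map_smul, h2 E' E'.2 E E.2 (fun e => hne (Subtype.ext e)), smul_zero]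
    · intro h; exact absurd hE h
  have := hli.fintype_card_le_finrank
  rwa [Fintype.card_coe] at this

/-- the step for one handle -/
theorem blk_swap (r : HRel N A B al be T tau) (ρ : G →* Module.End K V) {p : ℕ} (hp2 : 2 ≤ p)
    (hpN : p < N) (Q : Module.End K V)
    (hQ : ∀ x : G, (∀ l, 2 ≤ l → l < N → l ≠ p → Commute x (A l) ∧ Commute x (B l)) →
      Commute (ρ x) Q)
    (h0 : (ρ (B p) - 1) * ((ρ (A p) - 1) * Q) = 0) : (ρ (A p) - 1) * Q = 0 := by
  have cA : Commute (ρ (A p)) Q := hQ _ fun l _ hl hlp =>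
    ⟨r.commAA p hpN l hl, r.commAB p hpN l hl hlp.symm⟩
  have cB : Commute (ρ (B p)) Q := hQ _ fun l _ hl hlp =>
    ⟨(r.commAB l hl p hpN hlp).symm, r.commBB p hpN l hl⟩
  have br := r.braidAB p hpN
  obtain ⟨D, hD⟩ : ∃ D, D = A p * B p * A p := ⟨_, rfl⟩
  have d1 : D * A p = B p * D := by
    rw [hD]
    calc A p * B p * A p * A p = (B p * A p * B p) * A p := by rw [br]
      _ = B p * (A p * B p * A p) := by group
  have d2 : D * B p = A p * D := by
    rw [hD]
    calc A p * B p * A p * B p = A p * (B p * A p * B p) := by group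
      _ = A p * (A p * B p * A p) := by rw [br]
  have cD : Commute (ρ D) Q := by
    rw [hD, map_mul, map_mul]
    exact (cA.mul_left cB).mul_left cA
  have i1 : ρ D * ρ D⁻¹ = 1 := by rw [← map_mul, mul_inv_cancel, map_one]
  have h0' : (ρ (A p) - 1) * ((ρ (B p) - 1) * Q) = 0 := by
    have e : ρ D * ((ρ (B p) - 1) * ((ρ (A p) - 1) * Q)) =
        (ρ (A p) - 1) * ((ρ (B p) - 1) * Q) * ρ D := by
      have e1 : ρ D * (ρ (B p) - 1) = (ρ (A p) - 1) * ρ D := by
        rw [mul_sub, sub_mul, mul_one, one_mul, ← map_mul, ← map_mul, d2]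
      have e2 : ρ D * (ρ (A p) - 1) = (ρ (B p) - 1) * ρ D := by
        rw [mul_sub, sub_mul, mul_one, one_mul, ← map_mul, ← map_mul, d1]
      rw [← mul_assoc, e1, mul_assoc, ← mul_assoc (ρ D), e2, mul_assoc _ (ρ D), cD.eq]
      simp only [mul_assoc]
    rw [h0, mul_zero] at e
    calc _ = (ρ (A p) - 1) * ((ρ (B p) - 1) * Q) * ρ D * ρ D⁻¹ := by
            rw [mul_assoc _ (ρ D), i1, mul_one]
      _ = 0 := by rw [← e, zero_mul]
  set W := LinearMap.range Q with hW
  have hfix := blk_on r ρ hp2 hpN W (by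
    rintro x hx v ⟨u, rfl⟩
    refine ⟨ρ x u, ?_⟩
    exact (LinearMap.congr_fun (hQ x hx).eq u).symm) (by
    -- `ab = ba` on `W`
    have hWA : ∀ v ∈ W, ρ (A p) v ∈ W := by
      rintro v ⟨u, rfl⟩
      exact ⟨ρ (A p) u, (LinearMap.congr_fun cA.eq u).symm⟩
    have hWB : ∀ v ∈ W, ρ (B p) v ∈ W := by
      rintro v ⟨u, rfl⟩
      exact ⟨ρ (B p) u, (LinearMap.congr_fun cB.eq u).symm⟩
    have hcomm : ∀ v ∈ W, ρ (A p) (ρ (B p) v) = ρ (B p) (ρ (A p) v) := by
      rintro v ⟨u, rfl⟩
      have e1 := LinearMap.congr_fun h0 u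
      have e2 := LinearMap.congr_fun h0' u
      simp only [Module.End.mul_apply, LinearMap.sub_apply, Module.End.one_apply, map_sub,
        LinearMap.zero_apply] at e1 e2
      rw [sub_eq_zero] at e1 e2
      have e3 := sub_eq_iff_eq_add'.1 e2
      have e4 := sub_eq_iff_eq_add'.1 e1
      rw [e3, e4]
      abel
    intro v hv
    have hbr : ρ (A p) (ρ (B p) (ρ (A p) v)) = ρ (B p) (ρ (A p) (ρ (B p) v)) := by
      have := congrArg (fun x => ρ x v) br
      simpa only [map_mul, Module.End.mul_apply] using this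
    -- `a (b (a v)) = b (b (a v))`
    have h5 : ρ (A p) (ρ (B p) (ρ (A p) v)) = ρ (B p) (ρ (B p) (ρ (A p) v)) := by
      rw [hbr, hcomm v hv]
    have hinj : ∀ (x : G) (v : V), ρ x v = 0 → v = 0 := by
      intro x v hv
      have h1 : ρ x⁻¹ (ρ x v) = v := by
        rw [← Module.End.mul_apply, ← map_mul, inv_mul_cancel, map_one, Module.End.one_apply]
      rw [← h1, hv, map_zero]
    have h6 : ρ (B p) (ρ (A p) (ρ (A p) v)) = ρ (B p) (ρ (B p) (ρ (A p) v)) := by
      rw [← hcomm _ (hWA v hv)]
      exact h5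
    have h7 : ρ (A p) (ρ (A p) v) = ρ (B p) (ρ (A p) v) := by
      have := hinj (B p) (ρ (A p) (ρ (A p) v) - ρ (B p) (ρ (A p) v)) (by
        rw [map_sub, h6, sub_self])
      exact sub_eq_zero.1 this
    have h8 : ρ (A p) (ρ (A p) v) = ρ (A p) (ρ (B p) v) := by
      rw [h7, ← hcomm v hv]
    have := hinj (A p) (ρ (A p) v - ρ (B p) v) (by rw [map_sub, h8, sub_self])
    exact sub_eq_zero.1 this)
  apply LinearMap.ext
  intro u
  rw [Module.End.mul_apply, LinearMap.sub_apply, Module.End.one_apply, LinearMap.zero_apply,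
    sub_eq_zero]
  exact hfix _ ⟨u, rfl⟩

/-- the product of the `B_i - 1` and the `A_i - 1` does not vanish -/
theorem YX_ne (r : HRel N A B al be T tau) (ρ : G →* Module.End K V) {E : Finset ℕ}
    (hE : ∀ i ∈ E, 2 ≤ i ∧ i < N) (hX : X ρ r.commAA E ≠ 0) (F : Finset ℕ) (hF : F ⊆ E) :
    X ρ r.commBB F * X ρ r.commAA E ≠ 0 := by
  induction F using Finset.induction_on with
  | empty =>
    have : X ρ r.commBB ∅ = 1 := P_empty
    rwa [this, one_mul]
  | insert p F hp ih =>
    have hpE : p ∈ E := hF (Finset.mem_insert_self _ _)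
    have hFE : F ⊆ E := fun x hx => hF (Finset.mem_insert_of_mem hx)
    obtain ⟨hp2, hpN⟩ := hE p hpE
    intro h0
    apply ih hFE
    have e1 : X ρ r.commBB (insert p F) = (ρ (B p) - 1) * X ρ r.commBB F := by
      have := P_insert (f := fN ρ N B) (hc := fN_comm ρ r.commBB) hp
      rw [fN_lt ρ hpN] at this
      exact this
    have e2 : X ρ r.commAA E = (ρ (A p) - 1) * X ρ r.commAA (E.erase p) := by
      have := P_erase (f := fN ρ N A) (hc := fN_comm ρ r.commAA) hpE
      rw [fN_lt ρ hpN] at this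
      exact this
    have c1 : Commute (ρ (A p) - 1) (X ρ r.commBB F) := by
      refine Commute.sub_left ?_ (Commute.one_left _)
      apply X_comm
      intro i hi hiN
      exact r.commAB p hpN i hiN (fun e => hp (e ▸ hi))
    have e3 : X ρ r.commBB F * X ρ r.commAA E =
        (ρ (A p) - 1) * (X ρ r.commBB F * X ρ r.commAA (E.erase p)) := by
      rw [e2, ← mul_assoc, ← c1.eq, mul_assoc]
    rw [e3]
    refine blk_swap r ρ hp2 hpN _ ?_ ?_
    · intro x hx
      refine Commute.mul_right (X_comm ρ ?_) (X_comm ρ ?_)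
      · intro i hi hiN
        exact (hx i (hE i (hFE hi)).1 hiN (fun e => hp (e ▸ hi))).2
      · intro i hi hiN
        exact (hx i (hE i (Finset.mem_of_mem_erase hi)).1 hiN (Finset.ne_of_mem_erase hi)).1
    · rw [← e3, ← mul_assoc, ← e1]
      exact h0

/-- the binomial lower bound -/
theorem choose_le [FiniteDimensional K V] (r : HRel N A B al be T tau)
    (ρ : G →* Module.End K V) {k : ℕ} (hk : k + 2 ≤ N)
    (h1 : X ρ r.commAA (Finset.range k) ≠ 0)
    (h2 : X ρ r.commAA (Finset.range (k + 1)) = 0) : (N - 2).choose k ≤ finrank K V := by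
  classical
  set S := (Finset.Ico 2 N).powersetCard k with hS
  have hmem : ∀ E ∈ S, (∀ i ∈ E, 2 ≤ i ∧ i < N) ∧ E.card = k := by
    intro E hE
    obtain ⟨ha, hb⟩ := Finset.mem_powersetCard.1 hE
    exact ⟨fun i hi => Finset.mem_Ico.1 (ha hi), hb⟩
  have hX : ∀ E ∈ S, X ρ r.commAA E ≠ 0 := by
    intro E hE h0
    obtain ⟨ha, hb⟩ := hmem E hE
    rw [X_move r ρ (fun j hj => (ha j hj).2), hb] at h0
    exact h1 h0
  have hu : ∀ E : Finset ℕ, ∃ u : V, E ∈ S → (X ρ r.commBB E * X ρ r.commAA E) u ≠ 0 := by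
    intro E
    by_cases hE : E ∈ S
    · have h3 := YX_ne r ρ (hmem E hE).1 (hX E hE) E (le_refl _)
      by_contra hcon
      push Not at hcon
      apply h3
      apply LinearMap.ext
      intro u
      exact (hcon u).2
    · exact ⟨0, fun h => absurd h hE⟩
  choose u hu using hu
  have hcard : S.card = (N - 2).choose k := by
    rw [hS, Finset.card_powersetCard, Nat.card_Ico]
  rw [← hcard]
  refine count S (fun E => X ρ r.commAA E (u E)) (fun E => X ρ r.commBB E) ?_ ?_
  · intro E hE
    exact hu E hE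
  · intro E hE E' hE' hne
    obtain ⟨i, hi, hiE⟩ : ∃ i ∈ E', i ∉ E := by
      by_contra hcon
      push Not at hcon
      exact hne (Finset.eq_of_subset_of_card_le hcon
        (by rw [(hmem E hE).2, (hmem E' hE').2])).symm
    have hiN := ((hmem E' hE').1 i hi).2
    have hE2 := (hmem E hE).1
    -- `A_i - 1` kills the range
    have h3 : (ρ (A i) - 1) * X ρ r.commAA E = 0 := by
      have e := P_insert (f := fN ρ N A) (hc := fN_comm ρ r.commAA) hiE
      rw [fN_lt ρ hiN] at e
      have e' : (ρ (A i) - 1) * X ρ r.commAA E = X ρ r.commAA (insert i E) := e.symm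
      rw [e', X_move r ρ (by
        intro j hj
        rcases Finset.mem_insert.1 hj with rfl | hj
        · exact hiN
        · exact (hE2 j hj).2), Finset.card_insert_of_notMem hiE, (hmem E hE).2]
      exact h2
    have h4 : (ρ (B i) - 1) * X ρ r.commAA E = 0 := by
      obtain ⟨D, hD⟩ : ∃ D, D = A i * B i * A i := ⟨_, rfl⟩
      have d1 : D * A i = B i * D := by
        rw [hD]
        calc A i * B i * A i * A i = (B i * A i * B i) * A i := by rw [r.braidAB i hiN]
          _ = B i * (A i * B i * A i) := by group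
      have cD : Commute (ρ D) (X ρ r.commAA E) := by
        apply X_comm
        intro j hj hjN
        have hij : j ≠ i := fun e => hiE (e ▸ hj)
        rw [hD]
        exact ((r.commAA i hiN j hjN).mul_left (r.commAB j hjN i hiN hij).symm).mul_left
          (r.commAA i hiN j hjN)
      have i1 : ρ D * ρ D⁻¹ = 1 := by rw [← map_mul, mul_inv_cancel, map_one]
      have e1 : ρ D * (ρ (A i) - 1) = (ρ (B i) - 1) * ρ D := by
        rw [mul_sub, sub_mul, mul_one, one_mul, ← map_mul, ← map_mul, d1]
      have e2 : ρ D * ((ρ (A i) - 1) * X ρ r.commAA E) =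
          (ρ (B i) - 1) * X ρ r.commAA E * ρ D := by
        rw [← mul_assoc, e1, mul_assoc, cD.eq, mul_assoc]
      rw [h3, mul_zero] at e2
      calc _ = (ρ (B i) - 1) * X ρ r.commAA E * ρ D * ρ D⁻¹ := by
              rw [mul_assoc _ (ρ D), i1, mul_one]
        _ = 0 := by rw [← e2, zero_mul]
    have e5 : X ρ r.commBB E' = X ρ r.commBB (E'.erase i) * (ρ (B i) - 1) := by
      have e := P_erase (f := fN ρ N B) (hc := fN_comm ρ r.commBB) hi
      have c : Commute (fN ρ N B i) (P (fN ρ N B) (fN_comm ρ r.commBB) (E'.erase i)) :=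
        P_comm fun j _ => fN_comm ρ r.commBB i j
      rw [c.eq, fN_lt ρ hiN] at e
      exact e
    show X ρ r.commBB E' (X ρ r.commAA E (u E)) = 0
    rw [e5, ← Module.End.mul_apply, mul_assoc, h4, mul_zero, LinearMap.zero_apply]

end lin

end Pool.Agent.R352.MG
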