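import Mathlib
import Pool.Agent.R352.MG.A
import Pool.Agent.TH35.MG.Hlev

set_option autoImplicit false

/-! In dimension less than `binom (N - 2) k` (and `2 ^ (N - 1 - k)`) the products of `k` factors
`A_i - 1` vanish. -/

namespace Pool.Agent.R352.MG

open Pool.Agent.H798R3.MG Pool.Agent.TH35.MG Module

section ring
variable {R R' : Type*} [Ring R] [Ring R'] {G : Type*} [Group G]
  {N : ℕ} {A B al be T : ℕ → G} {tau : G}

theorem P_map (φ : R →+* R') {f : ℕ → R} {hc : ∀ i j, Commute (f i) (f j)} {f' : ℕ → R'}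
    {hc' : ∀ i j, Commute (f' i) (f' j)} (h : ∀ i, φ (f i) = f' i) (E : Finset ℕ) :
    φ (P f hc E) = P f' hc' E := by
  induction E using Finset.induction_on with
  | empty => rw [P_empty, P_empty, map_one]
  | insert i E hi ih => rw [P_insert hi, P_insert hi, map_mul, ih, h]

theorem X_map (φ : R →+* R') (ρ : G →* R) (ρ' : G →* R') (h : ∀ x, φ (ρ x) = ρ' x)
    (hA : ∀ i < N, ∀ j < N, Commute (A i) (A j)) (E : Finset ℕ) :
    φ (X ρ hA E) = X ρ' hA E := by
  apply P_map
  intro i
  unfold fN
  split_ifs
  · rw [map_sub, map_one, h]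
  · exact map_one φ

theorem X_list (ρ : G →* R) (hA : ∀ i < N, ∀ j < N, Commute (A i) (A j)) {E : Finset ℕ}
    (hE : ∀ i ∈ E, i < N) {l : List ℕ} (hnd : l.Nodup) (hl : ∀ i, i ∈ l ↔ i ∈ E) :
    (l.map (fun i => ρ (A i) - 1)).prod = X ρ hA E := by
  classical
  have e : l.toFinset = E := by
    ext i
    rw [List.mem_toFinset, hl]
  have h1 := Finset.noncommProd_toFinset l (fN ρ N A) (fun i _ j _ _ => fN_comm ρ hA i j) hnd
  have h2 : l.map (fun i => ρ (A i) - 1) = l.map (fN ρ N A) := by
    apply List.map_congr_left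
    intro i hi
    rw [fN_lt ρ (hE i ((hl i).1 hi))]
  rw [h2, ← h1]
  unfold X P
  congr 1

theorem mono {N' : ℕ} (h : N' ≤ N) (r : HRel N A B al be T tau) : HRel N' A B al be T tau where
  braidAB := fun i hi => r.braidAB i (by omega)
  commAA := fun i hi j hj => r.commAA i (by omega) j (by omega)
  commAB := fun i hi j hj => r.commAB i (by omega) j (by omega)
  commBB := fun i hi j hj => r.commBB i (by omega) j (by omega)
  commAal := fun i hi j hj => r.commAal i (by omega) j (by omega)
  commAbe := fun i hi j hj => r.commAbe i (by omega) j (by omega)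
  commBal := fun i hi j hj => r.commBal i (by omega) j (by omega)
  commBbe := fun i hi j hj => r.commBbe i (by omega) j (by omega)
  A_be := fun i hi => r.A_be i (by omega)
  B_al := fun i hi => r.B_al i (by omega)
  commTA := fun i hi m hm => r.commTA i (by omega) m (by omega)
  commTB := fun i hi m hm => r.commTB i (by omega) m (by omega)
  commTal := fun i hi m hm => r.commTal i (by omega) m (by omega)
  commTbe := fun i hi m hm => r.commTbe i (by omega) m (by omega)
  braidTBi := fun i hi => r.braidTBi i (by omega)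
  braidTBj := fun i hi => r.braidTBj i (by omega)
  T_al_i := fun i hi => r.T_al_i i (by omega)
  T_be_i := fun i hi => r.T_be_i i (by omega)
  T_al_j := fun i hi => r.T_al_j i (by omega)
  T_be_j := fun i hi => r.T_be_j i (by omega)
  commTT := fun i j hij hj => r.commTT i j hij (by omega)
  sA := fun i hi => r.sA i (by omega)
  sA' := fun i hi => r.sA' i (by omega)
  sB := fun i hi => r.sB i (by omega)
  sB' := fun i hi => r.sB' i (by omega)
  sal := fun i hi => r.sal i (by omega)
  sbe := fun i hi => r.sbe i (by omega)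
  dd2 := fun i hi => r.dd2 i (by omega)
  lantern := fun i hi => r.lantern i (by omega)
  tauA := fun i hi => r.tauA i (by omega)
  tauB := fun i hi => r.tauB i (by omega)
  tauAl := fun i hi => r.tauAl i (by omega)
  tauBe := fun i hi => r.tauBe i (by omega)
  tauT := fun i hi => r.tauT i (by omega)

end ring

theorem choose_up {M k : ℕ} (m : ℕ) (h1 : k ≤ m) (h2 : 2 * m ≤ M) :
    M.choose k ≤ M.choose m := by
  induction m, h1 using Nat.le_induction with
  | base => exact le_refl _
  | succ m _ ih =>
    exact (ih (by omega)).trans (Nat.choose_le_succ_of_lt_half_left (by omega))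

theorem choose_mono' {M k m : ℕ} (h1 : k ≤ m) (h2 : m + k ≤ M) : M.choose k ≤ M.choose m := by
  rcases Nat.lt_or_ge M (2 * m) with h | h
  · rw [← Nat.choose_symm (show m ≤ M by omega)]
    exact choose_up (M - m) (by omega) (by omega)
  · exact choose_up m h1 h

section lin
variable {K V G : Type*} [Field K] [AddCommGroup V] [Module K V] [Group G]
  {N : ℕ} {A B al be T : ℕ → G} {tau : G}

theorem exp_le [IsAlgClosed K] [FiniteDimensional K V] (r : HRel N A B al be T tau)
    (ρ : G →* Module.End K V) {k : ℕ} (hk : k + 2 ≤ N)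
    (h1 : X ρ r.commAA (Finset.range k) ≠ 0) : 2 ^ k ≤ finrank K V := by
  by_contra hlt
  push Not at hlt
  have hmem : ∀ i, i ∈ List.range' 2 k ↔ 2 ≤ i ∧ i < k + 2 := by
    intro i
    rw [List.mem_range'_1]
    omega
  have h2 := hlev_two (mono hk r) ρ (List.range' 2 k) List.nodup_range' hmem
    (by rwa [List.length_range'])
  have h3 := X_list ρ r.commAA (E := Finset.Ico 2 (k + 2)) (l := List.range' 2 k)
    (fun i hi => by have := Finset.mem_Ico.1 hi; omega) List.nodup_range'
    (fun i => by rw [hmem, Finset.mem_Ico])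
  rw [h2] at h3
  apply h1
  have h4 := (X_move (h := r.commAA) r ρ (E := Finset.Ico 2 (k + 2))
    (fun i hi => by have := Finset.mem_Ico.1 hi; omega)).1 h3.symm
  rwa [Nat.card_Ico, Nat.add_sub_cancel] at h4

theorem X_zero [IsAlgClosed K] [FiniteDimensional K V] (r : HRel N A B al be T tau)
    (ρ : G →* Module.End K V) {k : ℕ} (hk : 1 ≤ k) (hkN : k + 2 ≤ N)
    (h1 : finrank K V < (N - 2).choose k) (h2 : finrank K V < 2 ^ (N - 1 - k)) :
    X ρ r.commAA (Finset.range k) = 0 := by
  classical
  by_contra hne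
  have hm : X ρ r.commAA (Finset.range (N - 1 - k)) = 0 := by
    by_contra h3
    have := exp_le r ρ (k := N - 1 - k) (by omega) h3
    omega
  rcases Nat.lt_or_ge k (N - 1 - k) with h | h
  · have hex : ∃ m, k ≤ m ∧ X ρ r.commAA (Finset.range (m + 1)) = 0 :=
      ⟨N - 2 - k, by omega, by rwa [show N - 2 - k + 1 = N - 1 - k by omega]⟩
    obtain ⟨m, ⟨hm1, hm2⟩, hmin⟩ : ∃ m, (k ≤ m ∧ X ρ r.commAA (Finset.range (m + 1)) = 0) ∧
        ∀ n < m, ¬ (k ≤ n ∧ X ρ r.commAA (Finset.range (n + 1)) = 0) :=
      ⟨Nat.find hex, Nat.find_spec hex, fun n hn => Nat.find_min hex hn⟩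
    have hmle : m ≤ N - 2 - k := by
      by_contra hcon
      exact hmin (N - 2 - k) (by omega) ⟨by omega, by rwa [show N - 2 - k + 1 = N - 1 - k by omega]⟩
    have hm3 : X ρ r.commAA (Finset.range m) ≠ 0 := by
      rcases Nat.eq_or_lt_of_le hm1 with e | hlt
      · rw [← e]; exact hne
      · intro h0
        exact hmin (m - 1) (by omega) ⟨by omega, by rwa [Nat.sub_add_cancel (by omega)]⟩
    have h4 := choose_le r ρ (k := m) (by omega) hm3 hm2
    have h5 : (N - 2).choose k ≤ (N - 2).choose m := choose_mono' hm1 (by omega)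
    omega
  · apply hne
    exact P_mono (Finset.range_mono h) hm

end lin

end Pool.Agent.R352.MG
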