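import Mathlib
import Pool.Agent.R352.MG.B
import Pool.Agent.TH35.MG.Thm

set_option autoImplicit false

/-! Twists at all handles, and mapping classes supported on the last handles. -/

namespace Pool.Agent.R352.MG

open Pool.Agent.H798R3.MG Pool.Agent.H29R2.MG Pool.Agent.TH35.MG Pool.Agent.Helper950.BG Module

universe u

/-- the values `a_i`, `b_i` (`i ≠ m`), `b_m a_m` on the generators of the surface group -/
def twistValAt (g m : ℕ) : Fin g ⊕ Fin g → SurfaceGroup g
  | Sum.inl i => gen (Sum.inl i)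
  | Sum.inr i => if (i : ℕ) = m then gen (Sum.inr i) * gen (Sum.inl i) else gen (Sum.inr i)

/-- `T` is the class of the automorphism `b_m ↦ b_m a_m` of the surface group, fixing the other
generators: the Dehn twist about `a_m` -/
def IsTwistAt (g m : ℕ) (T : Mod g) : Prop :=
  ∃ τ : orientedAut g, classOf g τ = T ∧ ∀ j, applyAut g τ (gen j) = twistValAt g m j

/-- the subgroup of the surface group generated by the `a_i`, `b_i` with `m ≤ i` -/
def tailSub (g m : ℕ) : Subgroup (SurfaceGroup g) :=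
  Subgroup.closure {x | ∃ i : Fin g, m ≤ (i : ℕ) ∧ (x = gen (Sum.inl i) ∨ x = gen (Sum.inr i))}

/-- `φ` fixes `a_i`, `b_i` for `i < m` and maps the subgroup generated by the other `a_i`, `b_i`
to itself -/
def Supported (g m : ℕ) (φ : orientedAut g) : Prop :=
  (∀ i : Fin g, (i : ℕ) < m → applyAut g φ (gen (Sum.inl i)) = gen (Sum.inl i) ∧
    applyAut g φ (gen (Sum.inr i)) = gen (Sum.inr i)) ∧
  ∀ x ∈ tailSub g m, applyAut g φ x ∈ tailSub g m

/-- `t` is the Dehn twist about the curve `φ(a_m)`, where `φ` is supported on the handles `≥ m` -/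
def SubTwist (g m : ℕ) (t : Mod g) : Prop :=
  ∃ φ : orientedAut g, Supported g m φ ∧ ∃ T : Mod g, IsTwistAt g m T ∧
    t = classOf g φ * T * (classOf g φ)⁻¹

theorem sA_gen_at {g m : ℕ} (hm : m + 3 < g) (hg : 5 ≤ g) (w : FG g) :
    ((sA g m : orSub g) : MulAut (FG g)) w = hA g m w := by
  have c : Ctx g (g - 3) (g - 1) := ⟨by omega, by omega, by omega⟩
  have h1 := ((whyp.k g (g - 3) (g - 1) c.h2 c.hN c.hg).1 m (by omega)).1
  exact mkS_apply h1 w

theorem hA_inl {g : ℕ} (m : ℕ) (i : Fin g) :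
    hA g m (FreeGroup.of (Sum.inl i)) = FreeGroup.of (Sum.inl i) := by
  unfold hA ends
  rw [FreeGroup.lift_apply_of]
  rfl

theorem hA_inr {g : ℕ} (m : ℕ) (i : Fin g) :
    hA g m (FreeGroup.of (Sum.inr i)) = if (i : ℕ) = m then
      FreeGroup.of (Sum.inr i) * FreeGroup.of (Sum.inl i) else FreeGroup.of (Sum.inr i) := by
  have e : hA g m (FreeGroup.of (Sum.inr i)) = if (i : ℕ) = m then
      FreeGroup.of (Sum.inr i) * ha g m else FreeGroup.of (Sum.inr i) := by
    unfold hA ends
    rw [FreeGroup.lift_apply_of]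
    rfl
  rw [e]
  by_cases hi : (i : ℕ) = m
  · rw [if_pos hi, if_pos hi]
    have e2 : ha g m = FreeGroup.of (Sum.inl i) := by
      unfold ha
      rw [dif_pos (by rw [← hi]; exact i.2)]
      unfold fa
      congr 2
      exact Fin.ext hi.symm
    rw [e2]
  · rw [if_neg hi, if_neg hi]

theorem mk_hA {g : ℕ} (m : ℕ) (j : Fin g ⊕ Fin g) :
    mk g (hA g m (FreeGroup.of j)) = twistValAt g m j := by
  rcases j with i | i
  · rw [hA_inl]
    rfl
  · rw [hA_inr]
    show _ = (if (i : ℕ) = m then _ else _)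
    by_cases hi : (i : ℕ) = m
    · rw [if_pos hi, if_pos hi, map_mul]
      rfl
    · rw [if_neg hi, if_neg hi]
      rfl

theorem tau_val {g m : ℕ} (hm : m + 3 < g) (hg : 5 ≤ g) (j : Fin g ⊕ Fin g) :
    applyAut g (TQ.qh g (sA g m)) (gen j) = twistValAt g m j := by
  show TQ.qe (sA g m) (mk g (FreeGroup.of j)) = _
  rw [TQ.qe_mk, sA_gen_at hm hg]
  exact mk_hA m j

theorem aut_ext {g : ℕ} {φ ψ : orientedAut g}
    (h : ∀ j, applyAut g φ (gen j) = applyAut g ψ (gen j)) : φ = ψ := by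
  apply Subtype.ext
  apply MulEquiv.ext
  intro x
  have : (φ.1 : MulAut (SurfaceGroup g)).toMonoidHom =
      (ψ.1 : MulAut (SurfaceGroup g)).toMonoidHom := by
    apply surface_ext
    intro j
    exact h j
  exact DFunLike.congr_fun this x

theorem twist_eq_at {g m : ℕ} (hm : m + 3 < g) (hg : 5 ≤ g) (T : Mod g)
    (h : IsTwistAt g m T) : T = modF g (sA g m) := by
  obtain ⟨τ, rfl, h⟩ := h
  have e : τ = TQ.qh g (sA g m) := aut_ext fun j => by rw [h, tau_val hm hg]
  rw [e]
  rfl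

theorem twist_exists_at {g m : ℕ} (hm : m + 3 < g) (hg : 5 ≤ g) : ∃ T : Mod g, IsTwistAt g m T :=
  ⟨_, TQ.qh g (sA g m), rfl, tau_val hm hg⟩

theorem comm_supp {g m i : ℕ} (him : i < m) (φ τ : orientedAut g) (hφ : Supported g m φ)
    (hτ : ∀ j, applyAut g τ (gen j) = twistValAt g i j) : φ * τ = τ * φ := by
  have hmul : ∀ (ψ : orientedAut g) (x y : SurfaceGroup g),
      applyAut g ψ (x * y) = applyAut g ψ x * applyAut g ψ y := fun ψ x y => map_mul ψ.1 x y
  have hfix : ∀ x ∈ tailSub g m, applyAut g τ x = x := by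
    intro x hx
    induction hx using Subgroup.closure_induction with
    | mem x hx =>
      obtain ⟨p, hp, rfl | rfl⟩ := hx
      · rw [hτ]; rfl
      · rw [hτ]
        show (if (p : ℕ) = i then _ else _) = _
        rw [if_neg (by omega)]
    | one => exact map_one τ.1
    | mul x y _ _ h1 h2 => rw [hmul, h1, h2]
    | inv x _ h1 =>
      have : applyAut g τ x⁻¹ = (applyAut g τ x)⁻¹ := map_inv τ.1 x
      rw [this, h1]
  apply aut_ext
  intro j
  show applyAut g φ (applyAut g τ (gen j)) = applyAut g τ (applyAut g φ (gen j))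
  rcases j with p | p
  · have e : twistValAt g i (Sum.inl p) = gen (Sum.inl p) := rfl
    rw [hτ, e]
    rcases Nat.lt_or_ge (p : ℕ) m with hp | hp
    · rw [(hφ.1 p hp).1, hτ, e]
    · exact (hfix _ (hφ.2 _ (Subgroup.subset_closure ⟨p, hp, Or.inl rfl⟩))).symm
  · rcases Nat.lt_or_ge (p : ℕ) m with hp | hp
    · rw [(hφ.1 p hp).2, hτ]
      show applyAut g φ (if (p : ℕ) = i then _ else _) = (if (p : ℕ) = i then _ else _)
      by_cases hi : (p : ℕ) = i
      · rw [if_pos hi, hmul, (hφ.1 p hp).1, (hφ.1 p hp).2]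
      · rw [if_neg hi, (hφ.1 p hp).2]
    · have e : twistValAt g i (Sum.inr p) = gen (Sum.inr p) := if_neg (by omega)
      rw [hτ, e]
      exact (hfix _ (hφ.2 _ (Subgroup.subset_closure ⟨p, hp, Or.inr rfl⟩))).symm

/-- the representation of `Γ` by matrices over `K` -/
noncomputable def rK {g d : ℕ} {K : Type u} [Field K] (Γ : Subgroup (orSub g))
    (f : Mod g →* Matrix.GeneralLinearGroup (Fin d) K) : Γ →* Matrix (Fin d) (Fin d) K :=
  ((Units.coeHom _).comp f).comp ((modF g).comp Γ.subtype)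

theorem X_zero_mod {g k d : ℕ} (hk : 1 ≤ k) (hkg : k + 5 ≤ g) (h1 : d < (g - 5).choose k)
    (h2 : d < 2 ^ (g - 4 - k)) {K : Type u} [Field K]
    (f : Mod g →* Matrix.GeneralLinearGroup (Fin d) K)
    {Γ : Subgroup (orSub g)} {A B al be T : ℕ → Γ} {tau : Γ}
    (r : HRel (g - 3) A B al be T tau) :
    X (rK Γ f) r.commAA (Finset.range k) = 0 := by
  apply phi'_inj d K
  rw [map_zero, X_map (phi' d K) (rK Γ f)
    ((((glEnd d K).comp f).comp (modF g)).comp Γ.subtype) (fun x => rfl)]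
  have hfr : finrank (AlgebraicClosure K) (Fin d → AlgebraicClosure K) = d := by simp
  refine X_zero r _ hk (by omega) ?_ ?_
  · rw [hfr, show g - 3 - 2 = g - 5 by omega]
    exact h1
  · rw [hfr, show g - 3 - 1 - k = g - 4 - k by omega]
    exact h2

/-- nilpotency of `T - 1` -/
theorem unip_mod {g k d : ℕ} (hk : 1 ≤ k) (hkg : k + 5 ≤ g) (h1 : d < (g - 5).choose k)
    (h2 : d < 2 ^ (g - 4 - k)) {K : Type u} [Field K]
    (f : Mod g →* Matrix.GeneralLinearGroup (Fin d) K) (T0 : Mod g) (hT : IsTwistAt g 0 T0) :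
    ((f T0 : Matrix (Fin d) (Fin d) K) - 1) ^ k = 0 := by
  obtain ⟨Γ, A, B, al, be, T, tau, r, -, hA, -, -, -, -⟩ :=
    setup (g := g) (N := g - 3) (by omega) (by omega)
  set ρ := (((glEnd d K).comp f).comp (modF g)).comp Γ.subtype with hρ
  have h0 : X ρ r.commAA (Finset.range k) = 0 := by
    have h3 := X_zero_mod hk hkg h1 h2 f r
    have h4 := X_map (phi' d K) (rK Γ f) ρ (fun x => rfl) r.commAA (Finset.range k)
    rw [h3, map_zero] at h4
    exact h4.symm
  have h3 := unip_zero (mono (N' := k + 2) (by omega) r) (by omega) ρ (by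
    intro l hnd hl
    rw [X_list ρ r.commAA (E := Finset.Ico 2 (k + 2)) (fun i hi => by
      have := Finset.mem_Ico.1 hi; omega) hnd (fun i => by rw [hl, Finset.mem_Ico]),
      X_move r ρ (fun i hi => by have := Finset.mem_Ico.1 hi; omega), Nat.card_Ico,
      Nat.add_sub_cancel]
    exact h0)
  rw [Nat.add_sub_cancel] at h3
  have h4 : ρ (A 0) = phi' d K (f T0 : Matrix (Fin d) (Fin d) K) := by
    rw [phi'_gl, hρ, MonoidHom.comp_apply, MonoidHom.comp_apply, MonoidHom.comp_apply,
      twist_eq_at (by omega) (by omega) T0 hT]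
    congr 3
    exact hA 0 (by omega)
  apply phi'_inj d K
  rw [map_zero, map_pow, map_sub, map_one, ← h4]
  exact h3

/-- products over `k` disjoint curves -/
theorem prod_mod {g k d : ℕ} (hk : 1 ≤ k) (hkg : k + 5 ≤ g) (h1 : d < (g - 5).choose k)
    (h2 : d < 2 ^ (g - 4 - k)) {K : Type u} [Field K]
    (f : Mod g →* Matrix.GeneralLinearGroup (Fin d) K) (l : List ℕ) (hnd : l.Nodup)
    (hl : ∀ i ∈ l, i + 3 < g) (hlk : k ≤ l.length) (T : ℕ → Mod g)
    (hT : ∀ i ∈ l, IsTwistAt g i (T i)) :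
    (l.map (fun i => (f (T i) : Matrix (Fin d) (Fin d) K) - 1)).prod = 0 := by
  obtain ⟨Γ, A, B, al, be, T', tau, r, -, hA, -, -, -, -⟩ :=
    setup (g := g) (N := g - 3) (by omega) (by omega)
  have h0 := X_zero_mod hk hkg h1 h2 f r
  have e1 : l.map (fun i => (f (T i) : Matrix (Fin d) (Fin d) K) - 1) =
      l.map (fun i => rK Γ f (A i) - 1) := by
    apply List.map_congr_left
    intro i hi
    have h3 := hl i hi
    rw [twist_eq_at (by omega) (by omega) (T i) (hT i hi)]
    have h4 : (modF g) (sA g i) = (modF g) (A i : orSub g) := by rw [hA i (by omega)]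
    rw [h4]
    rfl
  rw [e1, X_list (rK Γ f) r.commAA (E := l.toFinset) (fun i hi => by
    have := hl i (List.mem_toFinset.1 hi); omega) hnd (fun i => List.mem_toFinset.symm)]
  rw [X_move r _ (fun i hi => by have := hl i (List.mem_toFinset.1 hi); omega)]
  refine P_mono ?_ h0
  rw [List.toFinset_card_of_nodup hnd]
  exact Finset.range_mono hlk

/-- the fixed vector -/
theorem fixed_mod {g k d : ℕ} (hk : 1 ≤ k) (hkg : k + 5 ≤ g) (h1 : d < (g - 5).choose k)
    (h2 : d < 2 ^ (g - 4 - k)) (hd : 0 < d) {K : Type u} [Field K]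
    (f : Mod g →* Matrix.GeneralLinearGroup (Fin d) K) :
    ∃ v : Fin d → K, v ≠ 0 ∧ ∀ t : Mod g, SubTwist g (k - 1) t →
      (f t : Matrix (Fin d) (Fin d) K).mulVec v = v := by
  classical
  obtain ⟨Γ, A, B, al, be, T', tau, r, -, hA, -, -, -, -⟩ :=
    setup (g := g) (N := g - 3) (by omega) (by omega)
  have h0 := X_zero_mod hk hkg h1 h2 f r
  have hne0 : X (rK Γ f) r.commAA (Finset.range 0) ≠ 0 := by
    have e : X (rK Γ f) r.commAA (Finset.range 0) = 1 := P_empty
    rw [e]
    haveI : Nonempty (Fin d) := ⟨⟨0, hd⟩⟩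
    exact one_ne_zero
  have hex : ∃ j, X (rK Γ f) r.commAA (Finset.range (j + 1)) = 0 :=
    ⟨k - 1, by rwa [Nat.sub_add_cancel hk]⟩
  obtain ⟨j, hj, hmin⟩ : ∃ j, X (rK Γ f) r.commAA (Finset.range (j + 1)) = 0 ∧
      ∀ n < j, ¬ X (rK Γ f) r.commAA (Finset.range (n + 1)) = 0 :=
    ⟨Nat.find hex, Nat.find_spec hex, fun n hn => Nat.find_min hex hn⟩
  have hjk : j ≤ k - 1 := by
    by_contra hcon
    exact hmin (k - 1) (by omega) (by rwa [Nat.sub_add_cancel hk])
  have hjne : X (rK Γ f) r.commAA (Finset.range j) ≠ 0 := by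
    rcases Nat.eq_zero_or_pos j with rfl | hpos
    · exact hne0
    · have := hmin (j - 1) (by omega)
      rwa [Nat.sub_add_cancel hpos] at this
  set Q := X (rK Γ f) r.commAA (Finset.range j) with hQ
  obtain ⟨u, hu⟩ : ∃ u : Fin d → K, Q.mulVec u ≠ 0 := by
    by_contra hcon
    push Not at hcon
    apply hjne
    apply Matrix.mulVec_injective
    funext u
    rw [hcon u, Matrix.zero_mulVec]
  refine ⟨Q.mulVec u, hu, ?_⟩
  rintro t ⟨φ, hφ, T, hT, rfl⟩
  -- the twist at `k - 1` fixes the range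
  have hTA : (f T : Matrix (Fin d) (Fin d) K) = rK Γ f (A (k - 1)) := by
    rw [twist_eq_at (by omega) (by omega) T hT]
    have h4 : (modF g) (sA g (k - 1)) = (modF g) (A (k - 1) : orSub g) := by
      rw [hA (k - 1) (by omega)]
    rw [h4]
    rfl
  have hkill : (rK Γ f (A (k - 1)) - 1) * Q = 0 := by
    have hnot : k - 1 ∉ Finset.range j := by
      rw [Finset.mem_range]
      omega
    have e := P_insert (f := fN (rK Γ f) (g - 3) A) (hc := fN_comm (rK Γ f) r.commAA) hnot
    rw [fN_lt _ (by omega)] at e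
    have e' : (rK Γ f (A (k - 1)) - 1) * Q =
      X (rK Γ f) r.commAA (insert (k - 1) (Finset.range j)) := e.symm
    rw [e', X_move r _ (by
      intro i hi
      rcases Finset.mem_insert.1 hi with rfl | hi
      · omega
      · have := Finset.mem_range.1 hi
        omega), Finset.card_insert_of_notMem hnot, Finset.card_range]
    exact hj
  have hTQ : (f T : Matrix (Fin d) (Fin d) K) * Q = Q := by
    rw [hTA]
    rw [sub_mul, one_mul, sub_eq_zero] at hkill
    exact hkill
  -- the class of `φ` commutes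
  have hcφ : Commute (f (classOf g φ) : Matrix (Fin d) (Fin d) K) Q := by
    apply P_comm
    intro i hi
    have hij := Finset.mem_range.1 hi
    rw [fN_lt _ (by omega)]
    refine Commute.sub_right ?_ (Commute.one_right _)
    have h5 : Commute (classOf g φ) (modF g (sA g i)) := by
      have := comm_supp (g := g) (m := k - 1) (i := i) (by omega) φ (TQ.qh g (sA g i)) hφ
        (tau_val (by omega) (by omega))
      exact congrArg (toMod g) this
    have h6 := (h5.map f).map (Units.coeHom (Matrix (Fin d) (Fin d) K))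
    have h7 : (modF g) (sA g i) = (modF g) (A i : orSub g) := by rw [hA i (by omega)]
    rw [h7] at h6
    exact h6
  have e1 : ((f (classOf g φ))⁻¹.1 : Matrix (Fin d) (Fin d) K) * (f (classOf g φ)).1 = 1 :=
    Units.inv_mul _
  have e2 : ((f (classOf g φ)).1 : Matrix (Fin d) (Fin d) K) * (f (classOf g φ))⁻¹.1 = 1 :=
    Units.mul_inv _
  have hcφ' : Commute ((f (classOf g φ))⁻¹.1 : Matrix (Fin d) (Fin d) K) Q := by
    show _ * Q = Q * _
    calc (f (classOf g φ))⁻¹.1 * Q
        = (f (classOf g φ))⁻¹.1 * Q * ((f (classOf g φ)).1 * (f (classOf g φ))⁻¹.1) := by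
          rw [e2, mul_one]
      _ = (f (classOf g φ))⁻¹.1 * (Q * (f (classOf g φ)).1) * (f (classOf g φ))⁻¹.1 := by
          simp only [mul_assoc]
      _ = (f (classOf g φ))⁻¹.1 * ((f (classOf g φ)).1 * Q) * (f (classOf g φ))⁻¹.1 := by
          rw [hcφ.eq]
      _ = ((f (classOf g φ))⁻¹.1 * (f (classOf g φ)).1) * Q * (f (classOf g φ))⁻¹.1 := by
          simp only [mul_assoc]
      _ = _ := by rw [e1, one_mul]
  have e3 : (f (classOf g φ * T * (classOf g φ)⁻¹) : Matrix (Fin d) (Fin d) K) * Q = Q := by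
    rw [map_mul, map_mul, map_inv]
    show (f (classOf g φ)).1 * (f T).1 * (f (classOf g φ))⁻¹.1 * Q = Q
    calc (f (classOf g φ)).1 * (f T).1 * (f (classOf g φ))⁻¹.1 * Q
        = (f (classOf g φ)).1 * ((f T).1 * (Q * (f (classOf g φ))⁻¹.1)) := by
          rw [mul_assoc _ _ Q, hcφ'.eq, mul_assoc]
      _ = (f (classOf g φ)).1 * (Q * (f (classOf g φ))⁻¹.1) := by
          rw [← mul_assoc (f T).1, hTQ]
      _ = (f (classOf g φ)).1 * ((f (classOf g φ))⁻¹.1 * Q) := by rw [hcφ'.eq]
      _ = Q := by rw [← mul_assoc, e2, one_mul]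
  rw [Matrix.mulVec_mulVec, e3]

end Pool.Agent.R352.MG
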